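import Pool.Agent.Lib.MP_1067ad_gt.Core

set_option autoImplicit false

open Cardinal Set Order

namespace Pool.Agent.Lib.MP_1067ad_gt

variable {A I : Type} [LinearOrder I] [WellFoundedLT I]

/-- `c` is thin with respect to the chain `S`. -/
def Thin (al : I → Cardinal.{0}) (S : I → Set A) (c : Set A) : Prop :=
  ∀ i, #(c \ S i : Set A) ≤ al i

/-- `D` is good with respect to the chain `S`. -/
def Good (al : I → Cardinal.{0}) (S : I → Set A) (D : Set A) : Prop :=
  ∀ i, ∃ j, i ≤ j ∧ al j < #((D ∩ S i) \ S j : Set A)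

theorem thin_orth (T : Setup A I) {S S' : I → Set A} {i i' : I}
    (h : #(S i ∩ S' i' : Set A) < #A) {c c' : Set A} (hc : Thin T.al S c)
    (hc' : Thin T.al S' c') : #(c ∩ c' : Set A) < #A := by
  have h1 : c ∩ c' ⊆ ((c \ S i) ∪ (c' \ S' i')) ∪ (S i ∩ S' i') := by
    intro x hx
    by_cases h1 : x ∈ S i <;> by_cases h2 : x ∈ S' i' <;> simp_all
  refine small_mono h1 (small_union T.hA (small_union T.hA ?_ ?_) h)
  · exact (hc i).trans_lt (T.lt i)
  · exact (hc' i').trans_lt (T.lt i')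

theorem infal (T : Setup A I) (i : I) : ℵ₀ ≤ T.al i := T.infI.trans (T.ge i)

/-- The selection lemma. -/
theorem select (T : Setup A I) (S : I → Set A) (hS : Antitone S) (D : Set A)
    (hD : Good T.al S D) (Z : Set (Set A)) (hZ : #Z ≤ #A) (hthin : ∀ z ∈ Z, Thin T.al S z) :
    ∃ c, c ⊆ D ∧ #c = #A ∧ Thin T.al S c ∧ ∀ z ∈ Z, #(c ∩ z : Set A) < #A := by
  classical
  obtain ⟨f⟩ : Nonempty (Z ↪ A) := hZ
  let E : I → Set Z := fun i => {z | T.rk (f z) ≤ i}
  have hE : ∀ i, #(E i) ≤ T.al i := by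
    intro i
    refine le_trans ?_ (T.rk_le i)
    apply mk_le_of_injective (f := fun z : E i => (⟨f z.1, z.2⟩ : {x : A | T.rk x ≤ i}))
    intro x y hxy
    simpa [Subtype.ext_iff] using hxy
  let V : I → Set A := fun i => ⋃ z : E i, (z.1.1 : Set A)
  have hV : ∀ i j, i ≤ j → #(V i \ S j : Set A) ≤ T.al j := by
    intro i j hij
    have h1 : V i \ S j = ⋃ z : E i, ((z.1.1 : Set A) \ S j) := by
      simp only [V]
      rw [iUnion_diff]
    rw [h1]
    exact iUnion_le (infal T j) ((hE i).trans (T.mono hij)) _ (fun z => hthin _ z.1.2 j)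
  have hC : ∀ i, ∃ C : Set A, C ⊆ (D ∩ S i) \ V i ∧ #C = T.al i := by
    intro i
    obtain ⟨j, hij, hj⟩ := hD i
    have h1 : T.al i ≤ #((D ∩ S i) \ V i : Set A) := by
      by_contra hlt
      push Not at hlt
      have h2 : (D ∩ S i) \ S j ⊆ ((D ∩ S i) \ V i) ∪ (V i \ S j) := by
        intro x hx
        by_cases h1 : x ∈ V i <;> simp_all
      have h3 : #((D ∩ S i) \ S j : Set A) ≤ T.al j := by
        refine (mk_le_mk_of_subset h2).trans ((mk_union_le _ _).trans ?_)
        exact add_le_of_le (infal T j) (hlt.le.trans (T.mono hij)) (hV i j hij)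
      exact absurd hj (not_lt.2 h3)
    obtain ⟨C, hC1, hC2⟩ := (le_mk_iff_exists_subset).1 h1
    exact ⟨C, hC1, hC2⟩
  choose C hC1 hC2 using hC
  have hlow : ∀ i, #(⋃ k : Iio i, C k : Set A) ≤ T.al i := by
    intro i
    apply iUnion_le (infal T i)
    · exact (mk_set_le _).trans (T.ge i)
    · intro k
      rw [hC2]
      exact T.mono k.2.le
  refine ⟨⋃ i, C i, ?_, ?_, ?_, ?_⟩
  · exact iUnion_subset fun i => (hC1 i).trans (diff_subset.trans inter_subset_left)
  · apply le_antisymm (mk_set_le _)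
    by_contra hlt
    push Not at hlt
    obtain ⟨i, hi⟩ := T.cofinal _ hlt
    have : #(C i) ≤ #(⋃ i, C i : Set A) := mk_le_mk_of_subset (subset_iUnion C i)
    rw [hC2] at this
    exact absurd hi (not_lt.2 this)
  · intro i
    refine (mk_le_mk_of_subset ?_).trans (hlow i)
    rintro x ⟨hx1, hx2⟩
    rw [mem_iUnion] at hx1
    obtain ⟨j, hj⟩ := hx1
    rw [mem_iUnion]
    refine ⟨⟨j, ?_⟩, hj⟩
    by_contra hji
    exact hx2 (hS (not_lt.1 hji) (hC1 j hj).1.2)
  · intro z hz
    let i := T.rk (f ⟨z, hz⟩)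
    refine small_mono ?_ ((hlow i).trans_lt (T.lt i))
    rintro x ⟨hx1, hx2⟩
    rw [mem_iUnion] at hx1
    obtain ⟨j, hj⟩ := hx1
    rw [mem_iUnion]
    refine ⟨⟨j, ?_⟩, hj⟩
    by_contra hji
    apply (hC1 j hj).2
    simp only [V, mem_iUnion]
    exact ⟨⟨⟨z, hz⟩, not_lt.1 hji⟩, hx2⟩

/-- The almost disjoint refinement obtained from a family of mutually orthogonal chains. -/
theorem refine_family (T : Setup A I) (p : Set (Set A)) (hp2 : succ #A = 2 ^ #A)
    (𝓡 : Type) (S : 𝓡 → I → Set A) (hanti : ∀ R, Antitone (S R))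
    (horth : ∀ R R', R ≠ R' → ∃ i i', #(S R i ∩ S R' i' : Set A) < #A)
    (hgood : ∀ D ∈ p, ∃ R, Good T.al (S R) D) :
    ∃ cc : {D : Set A // D ∈ p} × Set A → Set A, (∀ x, cc x ⊆ x.1.1) ∧ (∀ x, #(cc x) = #A) ∧
      ∀ x y, x ≠ y → #(cc x ∩ cc y : Set A) < #A := by
  classical
  let P := {D : Set A // D ∈ p} × Set A
  have hmkP : #P ≤ succ #A := by
    have h1 : #P = #{D : Set A // D ∈ p} * #(Set A) := by
      simp [P]
    rw [h1, hp2]
    have h2 : #{D : Set A // D ∈ p} ≤ 2 ^ #A := by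
      rw [← mk_set]
      exact mk_subtype_le _
    have h3 : ℵ₀ ≤ (2 : Cardinal.{0}) ^ #A := T.hA.trans (cantor _).le
    calc #{D : Set A // D ∈ p} * #(Set A) ≤ 2 ^ #A * 2 ^ #A := mul_le_mul' h2 (mk_set).le
      _ = 2 ^ #A := mul_eq_self h3
  let J := (#P).ord.ToType
  obtain ⟨e⟩ : Nonempty (J ≃ P) := by
    rw [← Cardinal.eq]
    exact mk_ord_toType _
  choose R hR using hgood
  let RR : J → 𝓡 := fun j => R (e j).1.1 (e j).1.2
  obtain ⟨f, hf1, hf2⟩ := exists_rec (I := J) (Y := Set A)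
    (fun j y => y ⊆ (e j).1.1 ∧ #y = #A ∧ Thin T.al (S (RR j)) y)
    (fun _ y _ y' => #(y ∩ y' : Set A) < #A) (by
      intro i g h1 _
      let Z : Set (Set A) := {z | ∃ j < i, RR j = RR i ∧ z = g j}
      have hZ : #Z ≤ #A := by
        have h3 : #Z ≤ #(Iio i) := by
          have h4 : Z ⊆ g '' (Iio i) := by
            rintro z ⟨j, hj, -, rfl⟩
            exact ⟨j, hj, rfl⟩
          exact (mk_le_mk_of_subset h4).trans mk_image_le
        refine h3.trans ?_
        rw [← lt_succ_iff]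
        exact (mk_Iio_toType_ord_lt i).trans_le hmkP
      have hZ2 : ∀ z ∈ Z, Thin T.al (S (RR i)) z := by
        rintro z ⟨j, hj, hji, rfl⟩
        rw [← hji]
        exact (h1 j hj).2.2
      obtain ⟨c, hc1, hc2, hc3, hc4⟩ := select T (S (RR i)) (hanti _) (e i).1.1
        (hR _ _) Z hZ hZ2
      refine ⟨c, ⟨hc1, hc2, hc3⟩, ?_⟩
      intro j hj
      by_cases hji : RR j = RR i
      · rw [inter_comm]
        exact hc4 _ ⟨j, hj, hji, rfl⟩
      · obtain ⟨k, k', hk⟩ := horth _ _ hji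
        exact thin_orth T hk (h1 j hj).2.2 hc3)
  refine ⟨fun x => f (e.symm x), ?_, ?_, ?_⟩
  · intro x
    have := (hf1 (e.symm x)).1
    simpa using this
  · intro x
    exact (hf1 (e.symm x)).2.1
  · intro x y hxy
    have hne : e.symm x ≠ e.symm y := fun h => hxy (e.symm.injective h)
    rcases lt_or_gt_of_ne hne with h | h
    · exact hf2 _ _ h
    · have := hf2 _ _ h
      rwa [inter_comm] at this

/-- Uniform ultrafilter, in unbundled form. -/
structure Unif (p : Ultrafilter A) : Prop where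
  card : ∀ s ∈ p, #s = #A

/-- The tower case. -/
theorem tower_case (T : Setup A I) (p : Ultrafilter A)
    (W : Type) [LinearOrder W] [WellFoundedLT W]
    (hW : ∀ X : Set W, #X < #I → ∃ w, ∀ x ∈ X, x < w) (B : W → Set A)
    (hB : ∀ ν ν', ν ≤ ν' → #(B ν' \ B ν : Set A) < #A)
    (hT : ∀ D ∈ p, ∀ ξ, ∃ ν, #A ≤ #((D ∩ B ξ) \ B ν : Set A)) :
    ∃ (𝓡 : Type) (S : 𝓡 → I → Set A), (∀ R, Antitone (S R)) ∧
      (∀ R R', R ≠ R' → ∃ i i', #(S R i ∩ S R' i' : Set A) < #A) ∧
      ∀ D ∈ p, ∃ R, Good T.al (S R) D := by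
  classical
  have hA := T.hA
  have hIne : Nonempty I := by
    rw [← mk_ne_zero_iff]
    intro h
    have := T.infI
    rw [h] at this
    exact absurd this (not_le.2 aleph0_pos)
  let B' : WithTop W → Set A := fun ν => WithTop.recTopCoe (C := fun _ => Set A) ∅ B ν
  have hBt : B' ⊤ = ∅ := rfl
  have hBc : ∀ w : W, B' (w : WithTop W) = B w := fun w => rfl
  have hB' : ∀ (ν : W) (ν' : WithTop W), (ν : WithTop W) ≤ ν' → #(B' ν' \ B ν : Set A) < #A := by
    intro ν ν' h
    induction ν' using WithTop.recTopCoe with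
    | top =>
      rw [hBt]
      simp only [empty_diff, mk_eq_zero]
      exact aleph0_pos.trans_le hA
    | coe w =>
      rw [hBc]
      exact hB _ _ (WithTop.coe_le_coe.1 h)
  let IsCof : WithTop W → (I → W) → Prop := fun ν f =>
    (∀ i, (f i : WithTop W) < ν) ∧ ∀ w : W, (w : WithTop W) < ν → ∃ i, w ≤ f i
  let 𝓡 := {ν : WithTop W // ∃ f : I → W, IsCof ν f}
  choose F hF using fun R : 𝓡 => R.2
  let S : 𝓡 → I → Set A := fun R i => (⋂ j : Iic i, B (F R j)) \ B' R.1
  refine ⟨𝓡, S, ?_, ?_, ?_⟩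
  · intro R i i' hii' x hx
    simp only [S, mem_diff, mem_iInter] at hx ⊢
    exact ⟨fun j => hx.1 ⟨j.1, j.2.trans hii'⟩, hx.2⟩
  · have key : ∀ R R' : 𝓡, R.1 < R'.1 → ∃ i i', #(S R i ∩ S R' i' : Set A) < #A := by
      intro R R' hlt
      obtain ⟨w, hw⟩ : ∃ w : W, (w : WithTop W) = R.1 := by
        apply WithTop.ne_top_iff_exists.1
        intro h
        rw [h] at hlt
        exact not_top_lt hlt
      obtain ⟨i', hi'⟩ := (hF R').2 w (by rw [hw]; exact hlt)
      refine ⟨Classical.arbitrary I, i', ?_⟩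
      refine small_mono ?_ (hB _ _ hi')
      rintro x ⟨hx1, hx2⟩
      simp only [S, mem_diff, mem_iInter] at hx1 hx2
      refine ⟨hx2.1 ⟨i', le_refl i'⟩, ?_⟩
      intro h
      apply hx1.2
      rw [← hw]
      exact h
    intro R R' hne
    rcases lt_or_gt_of_ne (fun h => hne (Subtype.ext h)) with h | h
    · exact key R R' h
    · obtain ⟨i, i', hi⟩ := key R' R h
      exact ⟨i', i, by rwa [inter_comm] at hi⟩
  · intro D hD
    have hWne : Nonempty W := by
      obtain ⟨w, -⟩ := hW ∅ (by simpa using aleph0_pos.trans_le T.infI)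
      exact ⟨w⟩
    obtain ⟨ξ, -, hξ⟩ := exists_rec (I := I) (Y := W) (fun _ _ => True)
      (fun _ y _ y' => y < y' ∧ #A ≤ #((D ∩ B y) \ B y' : Set A)) (by
        intro i g _ _
        choose n hn using fun ξ => hT D hD ξ
        let X : Set W := (g '' Iio i) ∪ ((fun j => n (g j)) '' Iio i)
        have hX : #X < #I := by
          have h1 : #(Iio i) < #I := by
            refine lt_of_le_of_lt (mk_le_mk_of_subset ?_) (T.iic i)
            exact Iio_subset_Iic_self
          refine (mk_union_le _ _).trans_lt (add_lt_of_lt T.infI ?_ ?_)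
          · exact mk_image_le.trans_lt h1
          · exact mk_image_le.trans_lt h1
        obtain ⟨w, hw⟩ := hW X hX
        refine ⟨w, trivial, ?_⟩
        intro j hj
        have h1 : g j < w := hw _ (Or.inl ⟨j, hj, rfl⟩)
        have h2 : n (g j) < w := hw _ (Or.inr ⟨j, hj, rfl⟩)
        refine ⟨h1, ?_⟩
        by_contra hlt
        push Not at hlt
        have h3 : (D ∩ B (g j)) \ B (n (g j)) ⊆
            ((D ∩ B (g j)) \ B w) ∪ (B w \ B (n (g j))) := by
          intro x hx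
          by_cases h1 : x ∈ B w <;> simp_all
        have h4 := small_mono h3 (small_union hA hlt (hB _ _ h2.le))
        exact absurd h4 (not_lt.2 (hn (g j))))
    have hne : {ν : WithTop W | ∀ i, (ξ i : WithTop W) < ν}.Nonempty :=
      ⟨⊤, fun i => WithTop.coe_lt_top _⟩
    let ν := (wellFounded_lt (α := WithTop W)).min _ hne
    have hν1 : ∀ i, (ξ i : WithTop W) < ν := (wellFounded_lt (α := WithTop W)).min_mem _ hne
    have hν2 : ∀ w : W, (w : WithTop W) < ν → ∃ i, w ≤ ξ i := by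
      intro w hw
      by_contra hcon
      push Not at hcon
      exact (wellFounded_lt (α := WithTop W)).not_lt_min _
        (show (w : WithTop W) ∈ {ν : WithTop W | ∀ i, (ξ i : WithTop W) < ν} from
          fun i => WithTop.coe_lt_coe.2 (hcon i)) hw
    let R : 𝓡 := ⟨ν, ξ, hν1, hν2⟩
    refine ⟨R, ?_⟩
    intro i
    -- choose k above
    choose kk hkk using fun j => hν2 (F R j) ((hF R).1 j)
    obtain ⟨k, hk⟩ := T.bdd (kk '' Iic i) (mk_image_le.trans_lt (T.iic i))
    obtain ⟨k', hk'⟩ := T.bdd {k} (by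
      rw [mk_singleton]
      exact one_lt_aleph0.trans_le T.infI)
    have hkk' : k < k' := hk' k rfl
    obtain ⟨j0, hj0⟩ := (hF R).2 (ξ k') (hν1 k')
    refine ⟨max i j0, le_max_left _ _, ?_⟩
    have hξk := (hξ k' k hkk').2
    have hlek : ∀ j ≤ i, F R j ≤ ξ k := by
      intro j hj
      have h1 : kk j < k := hk _ ⟨j, hj, rfl⟩
      exact (hkk j).trans (hξ k _ h1).1.le
    by_contra hcon
    push Not at hcon
    have hsub : (D ∩ B (ξ k)) \ B (ξ k') ⊆
        (((D ∩ S R i) \ S R (max i j0)) ∪ (⋃ j : Iic i, (B (ξ k) \ B (F R j)))) ∪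
          ((B' ν \ B (ξ k')) ∪ (B (F R j0) \ B (ξ k'))) := by
      rintro x ⟨⟨hx1, hx2⟩, hx3⟩
      by_cases h1 : ∀ j : Iic i, x ∈ B (F R j)
      · by_cases h2 : x ∈ B' ν
        · right; left; exact ⟨h2, hx3⟩
        · by_cases h3 : x ∈ S R (max i j0)
          · right; right
            simp only [S, mem_diff, mem_iInter] at h3
            exact ⟨h3.1 ⟨j0, le_max_right i j0⟩, hx3⟩
          · left; left
            refine ⟨⟨hx1, ?_⟩, h3⟩
            simp only [S, mem_diff, mem_iInter]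
            exact ⟨h1, h2⟩
      · push Not at h1
        obtain ⟨j, hj⟩ := h1
        left; right
        rw [mem_iUnion]
        exact ⟨j, hx2, hj⟩
    have hsmall : #((D ∩ B (ξ k)) \ B (ξ k') : Set A) < #A := by
      refine small_mono hsub (small_union hA (small_union hA ?_ ?_) (small_union hA ?_ ?_))
      · exact hcon.trans_lt (T.lt _)
      · apply small_iUnion hA
        · exact (T.iic i).trans_eq T.mkI
        · intro j
          exact hB _ _ (hlek j j.2)
      · exact hB' _ _ (hν1 k').le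
      · exact hB _ _ hj0
    exact absurd hsmall (not_lt.2 hξk)

end Pool.Agent.Lib.MP_1067ad_gt
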